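import Mathlib.FieldTheory.Finite.Extension
import Mathlib.LinearAlgebra.Matrix.Rank
import Mathlib.LinearAlgebra.Matrix.GeneralLinearGroup.Defs
import Mathlib.LinearAlgebra.Matrix.Transvection
import Mathlib.LinearAlgebra.Quotient.Card
import Mathlib.Tactic

set_option autoImplicit false

/-!
# Singer cycles have the rank property

For every finite field `F` with `q` elements and every `n ≥ 2` a Singer cycle in `GL(n, F)`, a
cyclic group of order `q ^ n - 1`, has the rank property: for every matrix `a` there is `g` in it
with `rank (a g a) = rank a`. So the rank property never forces a subgroup to contain `SL(n, q)`.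
-/

namespace Pool.Agent.Results.MP_6598fd_al.SingerCycles

open Matrix Module

universe u

/-- the rank property of a subgroup `G` of `GL(n, F)`: for every singular matrix `a` there is
`g` in `G` such that `a g a` and `a` have the same rank -/
def RankProperty {F : Type u} [Field F] {n : ℕ} (G : Subgroup (GL (Fin n) F)) : Prop :=
  ∀ a : Matrix (Fin n) (Fin n) F, a.det = 0 → ∃ g ∈ G, (a * (g : Matrix (Fin n) (Fin n) F) * a).rank = a.rank

section Count

variable {F : Type u} {K : Type*} [Field F] [Field K] [Finite K] [Algebra F K]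

/-- the counting argument: some nonzero `x` maps the range of `A` to a complement of its kernel -/
theorem exists_good (A : K →ₗ[F] K) :
    ∃ x : Kˣ, ∀ i ∈ LinearMap.range A, (x : K) * i ∈ LinearMap.ker A → i = 0 := by
  classical
  by_contra hcon
  push Not at hcon
  choose i hi hk hne using hcon
  have : Finite F := Finite.of_injective (algebraMap F K) (algebraMap F K).injective
  let I := LinearMap.range A
  let N := LinearMap.ker A
  let f : Kˣ → {y : I // y ≠ 0} × {y : N // y ≠ 0} := fun x =>
    (⟨⟨i x, hi x⟩, fun h => hne x (congrArg Subtype.val h)⟩,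
      ⟨⟨x * i x, hk x⟩, fun h => mul_ne_zero x.ne_zero (hne x) (congrArg Subtype.val h)⟩)
  have hf : Function.Injective f := by
    intro x y hxy
    have h1 : i x = i y := congrArg (fun z => ((z.1.1 : I) : K)) hxy
    have h2 : (x : K) * i x = y * i y := congrArg (fun z => ((z.2.1 : N) : K)) hxy
    rw [h1] at h2
    exact Units.ext (mul_right_cancel₀ (hne y) h2)
  have hcard := Nat.card_le_card_of_injective f hf
  rw [Nat.card_prod] at hcard
  have hI : Nat.card {y : I // y ≠ 0} + 1 = Nat.card I := by
    have := Finite.card_option (α := {y : I // y ≠ 0})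
    rw [← this]
    exact Nat.card_congr (Equiv.optionSubtypeNe (0 : I))
  have hN : Nat.card {y : N // y ≠ 0} + 1 = Nat.card N := by
    have := Finite.card_option (α := {y : N // y ≠ 0})
    rw [← this]
    exact Nat.card_congr (Equiv.optionSubtypeNe (0 : N))
  have hprod : Nat.card K = Nat.card N * Nat.card I := by
    rw [Submodule.card_eq_card_quotient_mul_card N]
    congr 1
    exact Nat.card_congr A.quotKerEquivRange.toEquiv
  have hu : Nat.card Kˣ = Nat.card K - 1 := Nat.card_units K
  have h2 : 2 ≤ Nat.card K := Finite.one_lt_card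
  rw [hu] at hcard
  set s := Nat.card {y : I // y ≠ 0}
  set t := Nat.card {y : N // y ≠ 0}
  rw [← hI, ← hN] at hprod
  have e : (t + 1) * (s + 1) = s * t + s + t + 1 := by ring
  rw [e] at hprod
  have hs : s = 0 := by omega
  rw [hs] at hprod hcard
  omega

end Count

section Main

variable {F : Type u} [Field F] [Finite F] {K : Type} [Field K] [Finite K] [Algebra F K] {n : ℕ}
  (b : Basis (Fin n) F K)

/-- the homomorphism from the multiplicative group of `K` to `GL(n, F)` -/
noncomputable def sing : Kˣ →* GL (Fin n) F :=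
  Units.map (Algebra.leftMulMatrix b : K →* Matrix (Fin n) (Fin n) F)

omit [Finite F] [Finite K] in
theorem sing_inj : Function.Injective (sing b) :=
  Units.map_injective (Algebra.leftMulMatrix_injective b)

omit [Finite F] [Finite K] in
theorem sing_coe (x : Kˣ) :
    ((sing b x : GL (Fin n) F) : Matrix (Fin n) (Fin n) F) = Algebra.leftMulMatrix b (x : K) := rfl

omit [Finite F] in
theorem rank_good (a : Matrix (Fin n) (Fin n) F) :
    ∃ g ∈ (sing b).range, (a * (g : Matrix (Fin n) (Fin n) F) * a).rank = a.rank := by
  set A : K →ₗ[F] K := Matrix.toLin b b a with hA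
  obtain ⟨x, hx⟩ := exists_good A
  refine ⟨sing b x, ⟨x, rfl⟩, ?_⟩
  rw [rank_eq_finrank_range_toLin _ b b, rank_eq_finrank_range_toLin a b b, Matrix.toLin_mul b b b,
    Matrix.toLin_mul b b b, sing_coe, Algebra.leftMulMatrix_apply, Matrix.toLin_toMatrix, ← hA,
    LinearMap.range_comp]
  set M : K →ₗ[F] K := (Algebra.lmul F K) (x : K)
  rw [← LinearMap.range_domRestrict]
  apply LinearMap.finrank_range_of_inj
  rw [← LinearMap.ker_eq_bot, LinearMap.ker_eq_bot']
  rintro ⟨i, hi⟩ h
  apply Subtype.ext
  apply hx i hi
  simpa [M] using h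

omit [Finite F] [Finite K] in
theorem natCard_range : Nat.card (sing b).range = Nat.card F ^ n - 1 := by
  rw [Nat.card_congr ((sing b).ofInjective (sing_inj b)).symm.toEquiv, Nat.card_units]
  have : Module.Finite F K := Module.Finite.of_basis b
  rw [Module.natCard_eq_pow_finrank (K := F) (V := K), Module.finrank_eq_card_basis b,
    Fintype.card_fin]

end Main

/-- for `n ≥ 2` a commutative subgroup does not contain the special linear group -/
theorem not_sl {F : Type u} [Field F] {n : ℕ} (hn : 2 ≤ n) (G : Subgroup (GL (Fin n) F))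
    (hG : ∀ g ∈ G, ∀ h ∈ G, g * h = h * g) :
    ¬ ∀ g : GL (Fin n) F, Matrix.det (g : Matrix (Fin n) (Fin n) F) = 1 → g ∈ G := by
  intro h
  let i0 : Fin n := ⟨0, by omega⟩
  let i1 : Fin n := ⟨1, by omega⟩
  have hne : i0 ≠ i1 := by simp [i0, i1]
  have d1 : (transvection i0 i1 (1 : F)).det = 1 := det_transvection_of_ne i0 i1 hne 1
  have d2 : (transvection i1 i0 (1 : F)).det = 1 := det_transvection_of_ne i1 i0 hne.symm 1
  let g1 : GL (Fin n) F := Matrix.GeneralLinearGroup.mkOfDetNeZero (transvection i0 i1 (1 : F))
    (by rw [d1]; exact one_ne_zero)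
  let g2 : GL (Fin n) F := Matrix.GeneralLinearGroup.mkOfDetNeZero (transvection i1 i0 (1 : F))
    (by rw [d2]; exact one_ne_zero)
  have h1 := hG g1 (h g1 d1) g2 (h g2 d2)
  have h2 : transvection i0 i1 (1 : F) * transvection i1 i0 (1 : F) =
      transvection i1 i0 (1 : F) * transvection i0 i1 (1 : F) :=
    congrArg (fun g : GL (Fin n) F => (g : Matrix (Fin n) (Fin n) F)) h1
  have h3 := congrFun (congrFun h2 i0) i0
  rw [transvection_mul_apply_same, transvection_mul_apply_of_ne _ _ _ _ hne] at h3
  simp [transvection, hne.symm] at h3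

/-- **Singer cycles have the rank property.** For every finite field `F` and every `n ≥ 2` there
is a cyclic subgroup of `GL(n, F)` of order `|F| ^ n - 1` with the rank property that does not
contain `SL(n, F)`. -/
theorem result (F : Type u) [Field F] [Finite F] (n : ℕ) (hn : 2 ≤ n) :
    ∃ G : Subgroup (GL (Fin n) F), RankProperty G ∧ IsCyclic G ∧ Nat.card G = Nat.card F ^ n - 1 ∧
      ¬ ∀ g : GL (Fin n) F, Matrix.det (g : Matrix (Fin n) (Fin n) F) = 1 → g ∈ G := by
  obtain ⟨p, hp⟩ := CharP.exists F
  have : Fact p.Prime := ⟨CharP.char_is_prime F p⟩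
  have : NeZero n := ⟨by omega⟩
  let K := FiniteField.Extension F p n
  have hfin : finrank F K = n := FiniteField.finrank_extension F p n
  let b : Basis (Fin n) F K := Module.finBasisOfFinrankEq F K hfin
  have hcyc : IsCyclic (sing b).range := by
    have : Fintype K := Fintype.ofFinite K
    exact isCyclic_of_surjective (sing b).rangeRestrict (sing b).rangeRestrict_surjective
  refine ⟨(sing b).range, fun a _ => rank_good b a, hcyc, natCard_range b, ?_⟩
  apply not_sl hn
  rintro g ⟨x, rfl⟩ h ⟨y, rfl⟩
  rw [← map_mul, ← map_mul, mul_comm]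

end Pool.Agent.Results.MP_6598fd_al.SingerCycles
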